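import Mathlib
import Pool.Agent.Helper30.ML.Goals

/-!
Project ML, packet T4: the link of the vertex is a 5-cycle.
-/

set_option autoImplicit false

namespace Pool.Agent.Helper86.ML

open Finset
open Pool.Agent.Helper94.KC (Proper InChain KStep KEq AllEq dR QG Even2)
open Pool.Agent.Helper30.ML

/-- the pair `w i, w (i + 2)` can be given equal colours -/
def EE {V : Type} (G : SimpleGraph V) (w : Fin 5 → V) (f : V → Fin 5) (i : Fin 5) : Prop :=
  ∃ g, KEq G f g ∧ g (w i) = g (w (i + 2))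

theorem noX_rot {V : Type} (G : SimpleGraph V) (v : V) (w : Fin 5 → V) (h : NoX G v w)
    (i : Fin 5) : NoX G v (fun j => w (i + j)) := by
  intro k A B hA hB hAB cA cB h0 h2 h1 h3
  have e2 : i + (k + 2) = i + k + 2 := by rw [add_assoc]
  have e1 : i + (k + 1) = i + k + 1 := by rw [add_assoc]
  have e3 : i + (k + 3) = i + k + 3 := by rw [add_assoc]
  simp only [e2, e1, e3] at h0 h1 h2 h3
  exact h (i + k) A B hA hB hAB cA cB h0 h2 h1 h3

theorem common_of_three (E E' : Fin 5 → Prop)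
    (h : ∃ i, E i ∧ (E (i + 1) ∨ E (i + 2)) ∧ (E (i + 4) ∨ E (i + 3)))
    (h' : ∃ i, E' i ∧ (E' (i + 1) ∨ E' (i + 2)) ∧ (E' (i + 4) ∨ E' (i + 3))) :
    ∃ j, E j ∧ E' j := by
  classical
  have D : ∀ i : Fin 5, i ≠ i + 1 ∧ i ≠ i + 2 ∧ i ≠ i + 3 ∧ i ≠ i + 4 ∧ i + 1 ≠ i + 4 ∧
      i + 1 ≠ i + 3 ∧ i + 2 ≠ i + 4 ∧ i + 2 ≠ i + 3 := by decide
  have key : ∀ F : Fin 5 → Prop,
      (∃ i, F i ∧ (F (i + 1) ∨ F (i + 2)) ∧ (F (i + 4) ∨ F (i + 3))) →
      3 ≤ (univ.filter (fun i => F i)).card := by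
    rintro F ⟨i, h0, h1, h2⟩
    have hc : ∀ a b : Fin 5, F a → F b → i ≠ a → i ≠ b → a ≠ b →
        3 ≤ (univ.filter (fun i => F i)).card := by
      intro a b ha hb h1 h2 h3
      have : ({i, a, b} : Finset (Fin 5)) ⊆ univ.filter (fun i => F i) := by
        intro x hx
        simp only [mem_insert, mem_singleton] at hx
        rcases hx with rfl | rfl | rfl
        · simpa using h0
        · simpa using ha
        · simpa using hb
      refine le_trans ?_ (card_le_card this)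
      rw [card_eq_three.2 ⟨i, a, b, h1, h2, h3, rfl⟩]
    obtain ⟨d1, d2, d3, d4, d5, d6, d7, d8⟩ := D i
    rcases h1 with h1 | h1 <;> rcases h2 with h2 | h2
    · exact hc _ _ h1 h2 d1 d4 d5
    · exact hc _ _ h1 h2 d1 d3 d6
    · exact hc _ _ h1 h2 d2 d4 d7
    · exact hc _ _ h1 h2 d2 d3 d8
  have k1 := key E h
  have k2 := key E' h'
  have k3 := card_union_add_card_inter (univ.filter (fun i => E i)) (univ.filter (fun i => E' i))
  have k4 : (univ.filter (fun i => E i) ∪ univ.filter (fun i => E' i)).card ≤ 5 := by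
    refine le_trans (card_le_univ _) ?_
    simp
  have k5 : 0 < (univ.filter (fun i => E i) ∩ univ.filter (fun i => E' i)).card := by omega
  obtain ⟨j, hj⟩ := card_pos.1 k5
  rw [mem_inter, mem_filter, mem_filter] at hj
  exact ⟨j, hj.1.2, hj.2.2⟩

/-- Packet T4. -/
theorem pT4 (hKB : StmtKB) (hT2 : StmtT2) (hT3 : StmtT3) : StmtT4 := by
  intro V _ G v w hw hv hcyc hX hyp
  obtain ⟨kbP, _, kbS, _⟩ := hKB
  have hadj : ∀ i, G.Adj v (w i) := fun i => (hv (w i)).2 ⟨i, rfl⟩
  have hwr : ∀ i : Fin 5, Function.Injective (fun j => w (i + j)) := by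
    intro i a b hab
    exact add_left_cancel (hw hab)
  have hvr : ∀ i : Fin 5, ∀ y, G.Adj v y ↔ ∃ j, (fun j => w (i + j)) j = y := by
    intro i y
    rw [hv y]
    constructor
    · rintro ⟨k, rfl⟩
      exact ⟨k - i, by simp⟩
    · rintro ⟨j, rfl⟩
      exact ⟨i + j, rfl⟩
  have hcr : ∀ i j : Fin 5, G.Adj (w (i + j)) (w (i + (j + 1))) := by
    intro i j
    rw [← add_assoc]
    exact hcyc (i + j)
  -- neighbouring vertices of the cycle have different colours
  have hne : ∀ f : V → Fin 5, Proper G f → ∀ i, f (w i) ≠ f (w (i + 1)) :=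
    fun f hf i => hf _ _ (hcyc i)
  -- a pair with equal colours
  have hpair : ∀ f : V → Fin 5, Proper G f → ∃ i, f (w i) = f (w (i + 2)) := by
    intro f hf
    have hns : ¬ Function.Surjective (fun i => f (w i)) := by
      intro hs
      obtain ⟨i, hi⟩ := hs (f v)
      exact hf _ _ (hadj i) hi.symm
    have hni : ¬ Function.Injective (fun i => f (w i)) := by
      intro hi
      exact hns (Finite.surjective_of_injective hi)
    unfold Function.Injective at hni
    push Not at hni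
    obtain ⟨a, b, hab, hne'⟩ := hni
    have h1 : b ≠ a + 1 := by
      rintro rfl
      exact hne f hf a hab
    have h2 : a ≠ b + 1 := by
      rintro rfl
      exact hne f hf b hab.symm
    have h3 : ∀ a b : Fin 5, a ≠ b → b ≠ a + 1 → a ≠ b + 1 → b = a + 2 ∨ a = b + 2 := by decide
    rcases h3 a b hne' h1 h2 with rfl | rfl
    · exact ⟨a, hab⟩
    · exact ⟨b, hab.symm⟩
  -- T2, rotated
  have hT2r : ∀ f : V → Fin 5, Proper G f → ∀ i, f (w i) = f (w (i + 2)) →
      f (w (i + 1)) ≠ f (w (i + 3)) → f (w (i + 1)) ≠ f (w (i + 4)) →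
      (EE G w f (i + 1) ∨ EE G w f (i + 2)) ∧ (EE G w f (i + 4) ∨ EE G w f (i + 3)) := by
    intro f hf i h02 h13 h14
    have n01 : f (w i) ≠ f (w (i + 1)) := hne f hf i
    have n23 : f (w (i + 2)) ≠ f (w (i + 3)) := by
      have := hne f hf (i + 2)
      rwa [show i + 2 + 1 = i + 3 by rw [add_assoc]; rfl] at this
    have n34 : f (w (i + 3)) ≠ f (w (i + 4)) := by
      have := hne f hf (i + 3)
      rwa [show i + 3 + 1 = i + 4 by rw [add_assoc]; rfl] at this
    have n40 : f (w (i + 4)) ≠ f (w i) := by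
      have := hne f hf (i + 4)
      rwa [show i + 4 + 1 = i by rw [add_assoc]; exact add_zero i] at this
    have h := hT2 V G v (fun j => w (i + j)) (hwr i) (fun j => hadj (i + j)) (noX_rot G v w hX i) f
      hf (by simpa using h02) (by simpa using n01) (by simpa using (h02 ▸ n23))
      (by simpa using n40.symm) h13 h14 n34
    obtain ⟨⟨g, hg, h1⟩, ⟨g', hg', h2⟩⟩ := h
    have h2' : g' (w (i + 1)) = g' (w (i + 4)) ∨ g' (w i) = g' (w (i + 3)) := by simpa using h2
    refine ⟨?_, ?_⟩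
    · rcases h1 with h1 | h1
      · left
        refine ⟨g, hg, ?_⟩
        rw [show i + 1 + 2 = i + 3 by rw [add_assoc]; rfl]
        exact h1
      · right
        refine ⟨g, hg, ?_⟩
        rw [show i + 2 + 2 = i + 4 by rw [add_assoc]; rfl]
        exact h1
    · rcases h2' with h2 | h2
      · left
        refine ⟨g', hg', ?_⟩
        rw [show i + 4 + 2 = i + 1 by rw [add_assoc]; rfl]
        exact h2.symm
      · right
        refine ⟨g', hg', ?_⟩
        rw [show i + 3 + 2 = i by rw [add_assoc]; exact add_zero i]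
        exact h2.symm
  -- T3, rotated
  have hT3r : ∀ f : V → Fin 5, Proper G f → ∀ i, f (w i) = f (w (i + 2)) →
      f (w (i + 1)) = f (w (i + 3)) → ∃ g, KEq G f g ∧ ∃ i, g (w i) = g (w (i + 2)) ∧
        g (w (i + 1)) ≠ g (w (i + 3)) ∧ g (w (i + 1)) ≠ g (w (i + 4)) := by
    intro f hf i h02 h13
    obtain ⟨g, hg, h⟩ := hT3 V G v (fun j => w (i + j)) (hwr i) (hvr i) (hcr i)
      (noX_rot G v w hX i) f hf (by simpa using h02) h13
    refine ⟨g, hg, ?_⟩
    rcases h with ⟨a1, a2, a3, a4, a5⟩ | ⟨a1, a2, a3, a4, a5⟩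
    · refine ⟨i + 1, ?_, ?_, ?_⟩
      · rw [show i + 1 + 2 = i + 3 by rw [add_assoc]; rfl]
        exact a2
      · rw [show i + 1 + 1 = i + 2 by rw [add_assoc]; rfl,
          show i + 1 + 3 = i + 4 by rw [add_assoc]; rfl]
        exact a5
      · rw [show i + 1 + 1 = i + 2 by rw [add_assoc]; rfl,
          show i + 1 + 4 = i + 0 by rw [add_assoc]; rfl]
        exact a1.symm
    · exact ⟨i, by simpa using a1, a2, a4⟩
  -- a colouring with exactly one pair
  have hone : ∀ f : V → Fin 5, Proper G f → ∃ g, KEq G f g ∧ ∃ i, g (w i) = g (w (i + 2)) ∧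
        g (w (i + 1)) ≠ g (w (i + 3)) ∧ g (w (i + 1)) ≠ g (w (i + 4)) := by
    intro f hf
    obtain ⟨i, hi⟩ := hpair f hf
    by_cases h13 : f (w (i + 1)) = f (w (i + 3))
    · exact hT3r f hf i hi h13
    by_cases h14 : f (w (i + 1)) = f (w (i + 4))
    · refine hT3r f hf (i + 4) ?_ ?_
      · rw [show i + 4 + 2 = i + 1 by rw [add_assoc]; rfl]
        exact h14.symm
      · rw [show i + 4 + 1 = i by rw [add_assoc]; exact add_zero i,
          show i + 4 + 3 = i + 2 by rw [add_assoc]; rfl]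
        exact hi
    · exact ⟨f, Relation.ReflTransGen.refl, i, hi, h13, h14⟩
  -- the set `E f` is large
  have hE : ∀ f : V → Fin 5, Proper G f → ∃ i, EE G w f i ∧
      (EE G w f (i + 1) ∨ EE G w f (i + 2)) ∧ (EE G w f (i + 4) ∨ EE G w f (i + 3)) := by
    intro f hf
    obtain ⟨g, hg, i, h1, h2, h3⟩ := hone f hf
    have hgP : Proper G g := kbP V G f g hg hf
    obtain ⟨h4, h5⟩ := hT2r g hgP i h1 h2 h3
    have hmono : ∀ j, EE G w g j → EE G w f j := by
      rintro j ⟨g', hg', h⟩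
      exact ⟨g', Relation.ReflTransGen.trans hg hg', h⟩
    exact ⟨i, ⟨g, hg, h1⟩, h4.imp (hmono _) (hmono _), h5.imp (hmono _) (hmono _)⟩
  intro f g hf hg
  obtain ⟨j, ⟨f1, hf1, e1⟩, ⟨g1, hg1, e2⟩⟩ := common_of_three (EE G w f) (EE G w g) (hE f hf)
    (hE g hg)
  have hf1P : Proper G f1 := kbP V G f f1 hf1 hf
  have hg1P : Proper G g1 := kbP V G g g1 hg1 hg
  have hna : ¬ G.Adj (w j) (w (j + 2)) := fun h => hf1P _ _ h e1
  have hk := hyp j hna f1 g1 hf1P hg1P e1 e2
  exact Relation.ReflTransGen.trans hf1 (Relation.ReflTransGen.trans hk (kbS V G g g1 hg1))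

end Pool.Agent.Helper86.ML
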